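import Mathlib

/-!
# The Thue-Morse partition does not minimise the next power-sum defect

For `n = 7` we exhibit a partition `{S, T}` of `{0, 1, ..., 127}` whose power sums agree for all
exponents `0 ≤ i < 7` and for which `|∑ s ^ 7 - ∑ t ^ 7|` is strictly smaller than for the
Thue-Morse partition (`5489326080` against `7! * 2 ^ 21 = 10569646080`).
-/

namespace Pool.Agent.Results.MP_f4b4d0_co.ThueMorseNotMinimal

open Finset

/-- `S` and `T` form a partition of `N_n = {0, 1, ..., 2 ^ n - 1}` (into two disjoint sets). -/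
def IsPartition (n : ℕ) (S T : Finset ℕ) : Prop :=
  S ∪ T = range (2 ^ n) ∧ Disjoint S T

/-- Property `P_n`: the power sums of `S` and `T` agree for all exponents `0 ≤ i < n`
(with `0 ^ 0 = 1`, as in Mathlib). -/
def PropP (n : ℕ) (S T : Finset ℕ) : Prop :=
  ∀ i : ℕ, i < n → ∑ s ∈ S, (s : ℤ) ^ i = ∑ t ∈ T, (t : ℤ) ^ i

/-- The defect `D(S,T) = ∑_{s ∈ S} s ^ n - ∑_{t ∈ T} t ^ n`. -/
def defect (n : ℕ) (S T : Finset ℕ) : ℤ :=
  ∑ s ∈ S, (s : ℤ) ^ n - ∑ t ∈ T, (t : ℤ) ^ n

/-- The Thue-Morse sequence: the parity of the number of ones in the binary expansion of `k`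
(the sum of the binary digits, modulo `2`). -/
def thueMorse (k : ℕ) : ℕ := (Nat.digits 2 k).sum % 2

/-- The elements of `N_n` with `t_k = 0`. -/
def STM (n : ℕ) : Finset ℕ := (range (2 ^ n)).filter fun k => thueMorse k = 0

/-- The elements of `N_n` with `t_k = 1`. -/
def TTM (n : ℕ) : Finset ℕ := (range (2 ^ n)).filter fun k => thueMorse k = 1

/-- The bit mask of the set `S` of the counterexample. -/
def mask : ℕ := 200161292303372993702133641116285294230

/-- **Theorem.** The Thue-Morse partition is not always a minimiser of the defect: there are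
`n ≥ 1` and a partition `{S, T}` of `N_n` with property `P_n` such that
`|D(S,T)| < |D(S_TM, T_TM)|`. -/
theorem result :
    ∃ n : ℕ, 1 ≤ n ∧ ∃ S T : Finset ℕ, IsPartition n S T ∧ PropP n S T ∧
      |defect n S T| < |defect n (STM n) (TTM n)| := by
  refine ⟨7, by norm_num, (range (2 ^ 7)).filter fun k => mask.testBit k = true,
    (range (2 ^ 7)).filter fun k => ¬ mask.testBit k = true, ⟨?_, ?_⟩, ?_, ?_⟩
  · exact Finset.filter_union_filter_not_eq _ _
  · exact Finset.disjoint_filter_filter_not _ _ _
  · unfold PropP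
    decide +kernel
  · have h1 : |defect 7 ((range (2 ^ 7)).filter fun k => mask.testBit k = true)
      ((range (2 ^ 7)).filter fun k => ¬ mask.testBit k = true)| = 5489326080 := by
      decide +kernel
    have h2 : |defect 7 (STM 7) (TTM 7)| = 10569646080 := by
      decide +kernel
    rw [h1, h2]
    norm_num

end Pool.Agent.Results.MP_f4b4d0_co.ThueMorseNotMinimal
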